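import Pool.Agent.H369.TH.Stm

/-! Project CK (helper369), part TH12 (helper225): degeneration to the normal cone of a curve. -/

set_option autoImplicit false

namespace Pool.Agent.H225.TH

open Pool.Agent.H369.TH

section alg

/-- the divided derivatives at `g / θ`, without denominators -/
def Dk {R : Type*} [CommRing R] (g θ : R) (J : ℕ) (F : ℕ → R) (k : ℕ) : R :=
  ∑ j ∈ Finset.range (J + 1), (j.choose k : R) * F j * g ^ (j - k) * θ ^ (J - j)

theorem Dk_gt {R : Type*} [CommRing R] (g θ : R) (J : ℕ) (F : ℕ → R) (k : ℕ) (hk : J < k) :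
    Dk g θ J F k = 0 := by
  unfold Dk
  refine Finset.sum_eq_zero fun j hj => ?_
  rw [Finset.mem_range] at hj
  rw [Nat.choose_eq_zero_of_lt (by omega), Nat.cast_zero, zero_mul, zero_mul, zero_mul]

open Polynomial in
theorem Dk_field {L : Type*} [Field L] (g θ : L) (hθ : θ ≠ 0) (J k : ℕ) (hk : k ≤ J)
    (F Q : Polynomial L) (hF : F.natDegree ≤ J) (h : F = (C θ * X - C g) ^ k * Q) :
    Dk g θ J F.coeff k = θ ^ J * Q.eval (g / θ) := by
  obtain ⟨z, hz⟩ : ∃ z, z = g / θ := ⟨_, rfl⟩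
  have hg : θ * z = g := by rw [hz, mul_div_cancel₀ _ hθ]
  rw [← hz]
  have h1 : Dk g θ J F.coeff k = θ ^ (J - k) * (hasseDeriv k F).eval z := by
    rw [hasseDeriv_apply, Polynomial.sum_over_range' F (fun n => by simp) (J + 1) (by omega),
      Polynomial.eval_finsetSum, Finset.mul_sum]
    unfold Dk
    refine Finset.sum_congr rfl fun j hj => ?_
    rw [Finset.mem_range] at hj
    rw [eval_monomial]
    by_cases hjk : j < k
    · rw [Nat.choose_eq_zero_of_lt hjk, Nat.cast_zero]
      ring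
    · obtain ⟨d, rfl⟩ := Nat.exists_eq_add_of_le (not_lt.1 hjk)
      obtain ⟨e, rfl⟩ := Nat.exists_eq_add_of_le (show k + d ≤ J by omega)
      rw [← hg]
      have e1 : k + d - k = d := by omega
      have e2 : k + d + e - (k + d) = e := by omega
      have e3 : k + d + e - k = d + e := by omega
      rw [e1, e2, e3]
      ring
  have h2 : (taylor z F) = (C θ * X) ^ k * taylor z Q := by
    have h5 : taylor z ((C θ * X - C g) ^ k) = (C θ * X) ^ k := by
      rw [taylor_apply]
      simp only [pow_comp, sub_comp, mul_comp, C_comp, X_comp]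
      congr 1
      rw [← hg, C_mul]
      ring
    rw [h, taylor_mul, h5]
  have h3 : (hasseDeriv k F).eval z = θ ^ k * Q.eval z := by
    rw [← taylor_coeff, h2, mul_pow, ← C_pow, mul_assoc, coeff_C_mul]
    have h4 : (X ^ k * taylor z Q).coeff k = (taylor z Q).coeff 0 := by
      have := coeff_X_pow_mul (taylor z Q) k 0
      rwa [zero_add] at this
    rw [h4, taylor_coeff_zero]
  rw [h1, h3, ← mul_assoc, ← pow_add]
  congr 2
  omega

open Polynomial in
theorem Dk_domain {R : Type*} [CommRing R] [IsDomain R] (g θ : R) (hθ : θ ≠ 0) (J k : ℕ)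
    (hk : k ≤ J) (F Q : Polynomial R) (hF : F.natDegree ≤ J) (hQ : Q.natDegree ≤ J)
    (h : F = (C θ * X - C g) ^ k * Q) :
    Dk g θ J F.coeff k = ∑ j ∈ Finset.range (J + 1), Q.coeff j * g ^ j * θ ^ (J - j) := by
  obtain ⟨φ, hφ⟩ : ∃ φ : R →+* FractionRing R, φ = algebraMap R (FractionRing R) := ⟨_, rfl⟩
  have hinj : Function.Injective φ := by
    rw [hφ]
    exact IsFractionRing.injective R (FractionRing R)
  have hθ' : φ θ ≠ 0 := by
    intro h0
    apply hθ
    apply hinj
    rw [h0, map_zero]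
  apply hinj
  have h1 := Dk_field (φ g) (φ θ) hθ' J k hk (F.map φ) (Q.map φ)
    ((natDegree_map_le).trans hF) (by rw [h]; simp)
  have h2 : φ (Dk g θ J F.coeff k) = Dk (φ g) (φ θ) J (F.map φ).coeff k := by
    unfold Dk
    rw [map_sum]
    refine Finset.sum_congr rfl fun j _ => ?_
    rw [map_mul, map_mul, map_mul, map_natCast, map_pow, map_pow, coeff_map]
  rw [h2, h1, eval_eq_sum_range' (lt_of_le_of_lt (natDegree_map_le.trans hQ) (Nat.lt_succ_self J)),
    Finset.mul_sum, map_sum]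
  refine Finset.sum_congr rfl fun j hj => ?_
  rw [Finset.mem_range] at hj
  rw [map_mul, map_mul, map_pow, map_pow, coeff_map]
  obtain ⟨z, hz⟩ : ∃ z, z = φ g / φ θ := ⟨_, rfl⟩
  have hg : φ g = φ θ * z := by rw [hz, mul_div_cancel₀ _ hθ']
  rw [← hz, hg]
  obtain ⟨e, rfl⟩ := Nat.exists_eq_add_of_le (show j ≤ J by omega)
  rw [show j + e - j = e by omega]
  ring

/-- the image of the divided derivatives under a homomorphism -/
theorem Dk_hom {R S : Type*} [CommRing R] [CommRing S] (τ : R →+* S) (g θ θ₀ : R) (h : S)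
    (hg : τ g = h * (τ θ₀ * τ θ)) (J : ℕ) (F : ℕ → R) (k : ℕ) :
    τ (θ₀ ^ k * θ ^ k * Dk g θ J F k) =
      τ θ ^ J * ∑ j ∈ Finset.range (J + 1), (j.choose k : S) * h ^ (j - k) * τ (θ₀ ^ j * F j) := by
  unfold Dk
  rw [Finset.mul_sum, Finset.mul_sum, map_sum]
  refine Finset.sum_congr rfl fun j hj => ?_
  rw [Finset.mem_range] at hj
  simp only [map_mul, map_pow, map_natCast]
  rw [hg]
  by_cases hjk : j < k
  · rw [Nat.choose_eq_zero_of_lt hjk, Nat.cast_zero]
    ring
  · obtain ⟨d, rfl⟩ := Nat.exists_eq_add_of_le (not_lt.1 hjk)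
    obtain ⟨e, rfl⟩ := Nat.exists_eq_add_of_le (show k + d ≤ J by omega)
    have e1 : k + d - k = d := by omega
    have e2 : k + d + e - (k + d) = e := by omega
    rw [e1, e2]
    ring

end alg

/-- **TH12** -/
theorem eps (h1 : S_rules) (_h2 : S_T) (h3 : S_Th) (h4 : S_theta) (h5 : S_quot) (h6 : S_pnode) :
    S_eps := by
  intro Γ K _ _ _ _ _ P hP N J γ C₀ x0 x1 y1 y2 hy hx1 Φ hΦ hΦJ hΦ0 m p y hp0 hp1 hnode
  classical
  have hdom : IsDomain (Ent Γ K) := (h1 Γ K).1
  obtain ⟨g, hg⟩ : ∃ g, g = theta P y1 * theta P y2 := ⟨_, rfl⟩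
  obtain ⟨θ, hθ⟩ : ∃ θ, θ = theta P x1 := ⟨_, rfl⟩
  obtain ⟨θ₀, hθ₀⟩ : ∃ θ₀, θ₀ = theta P x0 := ⟨_, rfl⟩
  have hθ0 : θ ≠ 0 := by rw [hθ]; exact (h4 Γ K P hP x1).2.1
  have hθ₀0 : θ₀ ≠ 0 := by rw [hθ₀]; exact (h4 Γ K P hP x0).2.1
  obtain ⟨-, -, -, hmul, -, hneg, hmono, -⟩ := h3 Γ K P hP
  have hone : (1 : Ent Γ K) ∈ Th P 0 1 := by
    have h := hmono 0
    rw [(h1 Γ K).2.2.2.2.2.2.2.1, zpow_zero] at h
    exact h
  have hpow : ∀ (n : ℕ) (e : ℤ) (c : Pt Γ K) (f : Ent Γ K), f ∈ Th P e c →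
      f ^ n ∈ Th P (n * e) (c ^ n) := by
    intro n e c f hf
    induction n with
    | zero =>
      rw [pow_zero, pow_zero, Nat.cast_zero, zero_mul]
      exact hone
    | succ n ih =>
      have h := hmul _ _ _ _ _ _ ih hf
      rw [pow_succ, pow_succ]
      have e1 : ((n + 1 : ℕ) : ℤ) * e = n * e + e := by push_cast; ring
      rw [e1]
      exact h
  -- the polynomials
  obtain ⟨F, hF⟩ : ∃ F : ℕ → Polynomial (Ent Γ K), F = fun b =>
      ∑ j ∈ Finset.range (J + 1), Polynomial.monomial j (Φ j b) := ⟨_, rfl⟩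
  have hFc : ∀ b j, (F b).coeff j = Φ j b := by
    intro b j
    rw [hF]
    show (∑ j ∈ Finset.range (J + 1), Polynomial.monomial j (Φ j b)).coeff j = Φ j b
    rw [Polynomial.finsetSum_coeff]
    simp only [Polynomial.coeff_monomial]
    by_cases hj : j ≤ J
    · rw [Finset.sum_eq_single j]
      · rw [if_pos rfl]
      · intro i _ hij
        rw [if_neg hij]
      · intro hj'
        exact absurd (Finset.mem_range.2 (Nat.lt_succ_of_le hj)) hj'
    · rw [hΦJ j b (not_le.1 hj)]
      refine Finset.sum_eq_zero fun i hi => ?_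
      rw [Finset.mem_range] at hi
      rw [if_neg (by omega)]
  have hFcf : ∀ b, (F b).coeff = fun j => Φ j b := fun b => funext fun j => hFc b j
  have hFd : ∀ b, (F b).natDegree ≤ J := by
    intro b
    rw [Polynomial.natDegree_le_iff_coeff_eq_zero]
    intro j hj
    rw [hFc, hΦJ j b hj]
  have hFT : ∀ b j : ℕ, (F b).coeff j ∈ Th P ((N : ℤ) - (j : ℤ)) (C₀ * ng x0 ^ (-(j : ℤ))) := by
    intro b j
    rw [hFc]
    exact hΦ j b
  -- the division
  have hquot : ∀ (b k : ℕ), (∀ i < k, Dk g θ J (fun j => Φ j b) i = 0) →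
      ∃ Q : Polynomial (Ent Γ K),
        F b = (Polynomial.C θ * Polynomial.X - Polynomial.C g) ^ k * Q ∧
        (∀ j : ℕ, Q.coeff j ∈ Th P ((N : ℤ) - 2 * k - (j : ℤ))
          (C₀ * ng x0 ^ (-((j : ℤ) + k)) * ng x1 ^ (-(k : ℤ)))) ∧
        (∀ j : ℕ, J < j + k → Q.coeff j = 0) := by
    intro b k hk
    have h := h5 Γ K P hP (N : ℤ) J k C₀ x0 x1 y1 y2 hy hx1 (F b) (hFT b) (hFd b) (by
      intro i hi
      have h7 := hk i hi
      rw [← hFcf b] at h7
      rw [← hg, ← hθ]
      exact h7)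
    rw [← hg, ← hθ] at h
    exact h
  have hex : ∃ s, ∃ b k, b + k = s ∧ Dk g θ J (fun j => Φ j b) k ≠ 0 := by
    by_contra hcon
    obtain ⟨j, b, hjb⟩ := hΦ0
    apply hjb
    obtain ⟨Q, hQ1, -, hQ3⟩ := hquot b (J + 1) (by
      intro i _
      by_contra h
      exact hcon ⟨b + i, b, i, rfl, h⟩)
    have hQ : Q = 0 := by
      ext1 j
      rw [hQ3 j (by omega), Polynomial.coeff_zero]
    rw [← hFc b j, hQ1, hQ, mul_zero, Polynomial.coeff_zero]
  obtain ⟨s, hs, hmin⟩ : ∃ s, (∃ b k, b + k = s ∧ Dk g θ J (fun j => Φ j b) k ≠ 0) ∧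
      ∀ b k, b + k < s → Dk g θ J (fun j => Φ j b) k = 0 := by
    refine ⟨Nat.find hex, Nat.find_spec hex, ?_⟩
    intro b k hbk
    by_contra h
    exact Nat.find_min hex hbk ⟨b, k, rfl, h⟩
  obtain ⟨A, hA⟩ : ∃ A : ℕ → Ent Γ K, A = fun k => if k ≤ s then
      θ₀ ^ k * θ ^ k * Dk g θ J (fun j => Φ j (s - k)) k else 0 := ⟨_, rfl⟩
  have hAk : ∀ k, k ≤ s → A k = θ₀ ^ k * θ ^ k * Dk g θ J (fun j => Φ j (s - k)) k := by
    intro k hk
    rw [hA]
    exact if_pos hk
  have hAs : ∀ k, s < k → A k = 0 := by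
    intro k hk
    rw [hA]
    exact if_neg (by omega)
  have hAJ : ∀ k, J < k → A k = 0 := by
    intro k hk
    by_cases h : k ≤ s
    · rw [hAk k h, Dk_gt _ _ _ _ _ hk, mul_zero]
    · exact hAs k (by omega)
  refine ⟨A, ?_, hAJ, ?_, ?_⟩
  · obtain ⟨b, k, hbk, hne⟩ := hs
    refine ⟨k, ?_⟩
    rw [hAk k (by omega)]
    have e1 : s - k = b := by omega
    rw [e1]
    exact mul_ne_zero (mul_ne_zero (pow_ne_zero _ hθ₀0) (pow_ne_zero _ hθ0)) hne
  · intro k hk
    by_cases hks : k ≤ s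
    · obtain ⟨Q, hQ1, hQ2, hQ3⟩ := hquot (s - k) k (fun i hi => hmin (s - k) i (by omega))
      have hQd : Q.natDegree ≤ J := by
        rw [Polynomial.natDegree_le_iff_coeff_eq_zero]
        intro j hj
        exact hQ3 j (by omega)
      have hD : Dk g θ J (fun j => Φ j (s - k)) k =
          ∑ j ∈ Finset.range (J + 1), Q.coeff j * g ^ j * θ ^ (J - j) := by
        have h := Dk_domain g θ hθ0 J k hk (F (s - k)) Q (hFd _) hQd hQ1
        rw [hFcf] at h
        exact h
      have hQneg : ∀ j : ℕ, N < 2 * k + j → Q.coeff j = 0 := by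
        intro j hj
        have h := hQ2 j
        rw [hneg _ _ (by omega), Submodule.mem_bot] at h
        exact h
      constructor
      · intro hN
        rw [hAk k hks, hD, Finset.sum_eq_zero, mul_zero]
        intro j _
        rw [hQneg j (by omega), zero_mul, zero_mul]
      · intro hN
        obtain ⟨μ, hμ⟩ : ∃ μ, μ = jm N J k := ⟨_, rfl⟩
        have hμ' : μ = min (J - k) (N - 2 * k) := hμ
        have hμJ : μ ≤ J := by omega
        have hQμ : ∀ j : ℕ, μ < j → Q.coeff j = 0 := by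
          intro j hj
          rcases le_total (J - k) (N - 2 * k) with h | h
          · exact hQ3 j (by omega)
          · exact hQneg j (by omega)
        refine ⟨∑ j ∈ Finset.range (μ + 1), Q.coeff j * g ^ j * θ ^ (μ - j), ?_, ?_⟩
        · refine Submodule.sum_mem _ fun j hj => ?_
          rw [Finset.mem_range] at hj
          have hgm : g ∈ Th P (1 + 1) (ng y1 * ng y2) := by
            rw [hg]
            exact hmul _ _ _ _ _ _ (h4 Γ K P hP y1).1 (h4 Γ K P hP y2).1
          have hθm : θ ∈ Th P 1 (ng x1) := by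
            rw [hθ]
            exact (h4 Γ K P hP x1).1
          have h := hmul _ _ _ _ _ _ (hmul _ _ _ _ _ _ (hQ2 j) (hpow j _ _ _ hgm))
            (hpow (μ - j) _ _ _ hθm)
          have hdeg : (N : ℤ) - 2 * k - (j : ℤ) + (j : ℤ) * (1 + 1) + ((μ - j : ℕ) : ℤ) * 1 =
              (N : ℤ) - 2 * k + μ := by
            rw [Nat.cast_sub (by omega)]
            ring
          have hng : (ng y1 * ng y2 : Pt Γ K) = ng x0 * ng x1 := by
            unfold ng
            rw [mul_mul_mul_comm, hy, mul_mul_mul_comm]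
          have hch : C₀ * ng x0 ^ (-((j : ℤ) + k)) * ng x1 ^ (-(k : ℤ)) * (ng y1 * ng y2) ^ j *
              ng x1 ^ (μ - j) = C₀ * ng x0 ^ (-(k : ℤ)) * ng x1 ^ ((μ : ℤ) - k) := by
            rw [hng, mul_pow, ← zpow_natCast (ng x0) j, ← zpow_natCast (ng x1) j,
              ← zpow_natCast (ng x1) (μ - j)]
            have e1 : C₀ * ng x0 ^ (-((j : ℤ) + k)) * ng x1 ^ (-(k : ℤ)) *
                (ng x0 ^ (j : ℤ) * ng x1 ^ (j : ℤ)) * ng x1 ^ ((μ - j : ℕ) : ℤ) =
                C₀ * (ng x0 ^ (-((j : ℤ) + k)) * ng x0 ^ (j : ℤ)) *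
                  (ng x1 ^ (-(k : ℤ)) * ng x1 ^ (j : ℤ) * ng x1 ^ ((μ - j : ℕ) : ℤ)) := by
              ac_rfl
            rw [e1, ← zpow_add, ← zpow_add, ← zpow_add]
            have e2 : -((j : ℤ) + k) + j = -(k : ℤ) := by ring
            have e3 : -(k : ℤ) + j + ((μ - j : ℕ) : ℤ) = (μ : ℤ) - k := by
              rw [Nat.cast_sub (by omega)]
              ring
            rw [e2, e3]
          rw [hdeg, hch] at h
          rw [← hμ]
          exact h
        · rw [hAk k hks, hD, ← hμ, ← hθ, ← hθ₀]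
          have h : ∑ j ∈ Finset.range (J + 1), Q.coeff j * g ^ j * θ ^ (J - j) =
              θ ^ (J - μ) * ∑ j ∈ Finset.range (μ + 1), Q.coeff j * g ^ j * θ ^ (μ - j) := by
            rw [Finset.mul_sum]
            symm
            rw [← Finset.sum_subset (s₁ := Finset.range (μ + 1)) (s₂ := Finset.range (J + 1))]
            · refine Finset.sum_congr rfl fun j hj => ?_
              rw [Finset.mem_range] at hj
              have e1 : J - j = (J - μ) + (μ - j) := by omega
              rw [e1, pow_add]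
              ring
            · intro j hj
              rw [Finset.mem_range] at hj ⊢
              omega
            · intro j _ hj
              rw [Finset.mem_range, not_lt] at hj
              rw [hQμ j (by omega), zero_mul, zero_mul]
          rw [h]
          have e2 : k + J - μ = k + (J - μ) := by omega
          rw [e2, pow_add]
          ring
    · have h0 := hAs k (by omega)
      refine ⟨fun _ => h0, fun _ => ⟨0, Submodule.zero_mem _, by rw [h0, mul_zero]⟩⟩
  · -- the nodes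
    intro i a' b' hab
    obtain ⟨τ, hτ⟩ : ∃ τ, τ = T (p i) := ⟨_, rfl⟩
    have hc : PowerSeries.constantCoeff (τ θ₀ * τ θ) ≠ 0 := by
      rw [map_mul, ← PowerSeries.coeff_zero_eq_constantCoeff_apply,
        ← PowerSeries.coeff_zero_eq_constantCoeff_apply, hτ, hθ₀, hθ]
      exact mul_ne_zero (hp0 i) (hp1 i)
    obtain ⟨h, hh⟩ : ∃ h : PowerSeries (HG Γ K), h = τ g * (τ θ₀ * τ θ)⁻¹ := ⟨_, rfl⟩
    have hgh : τ g = h * (τ θ₀ * τ θ) := by
      rw [hh, mul_assoc, PowerSeries.inv_mul_cancel _ hc, mul_one]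
    have hcoef : PowerSeries.coeff 0 h = PowerSeries.coeff 0 (τ g) /
        (PowerSeries.coeff 0 (τ θ₀) * PowerSeries.coeff 0 (τ θ)) := by
      rw [hh, div_eq_mul_inv]
      simp only [PowerSeries.coeff_zero_eq_constantCoeff_apply, map_mul,
        PowerSeries.constantCoeff_inv]
    have hE := h6 (HG Γ K) h (y i) J γ (fun j b => τ (θ₀ ^ j * Φ j b)) (by
      intro a b hab'
      rw [hcoef]
      have h7 := hnode i a b hab'
      rw [← hg, ← hθ, ← hθ₀, ← hτ] at h7
      exact h7) s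
    obtain ⟨E, hEd⟩ : ∃ E : ℕ → PowerSeries (HG Γ K), E = fun k =>
        ∑ j ∈ Finset.range (J + 1), (j.choose k : PowerSeries (HG Γ K)) * h ^ (j - k) *
          τ (θ₀ ^ j * Φ j (s - k)) := ⟨_, rfl⟩
    have hAE : ∀ k, k ≤ s → τ (A k) = τ θ ^ J * E k := by
      intro k hk
      rw [hAk k hk, hEd]
      exact Dk_hom τ g θ θ₀ h hgh J (fun j => Φ j (s - k)) k
    rw [← hτ]
    have hsum : ∑ k ∈ Finset.range (J + 1), (k.choose b' : HG Γ K) * y i ^ (k - b') *
        PowerSeries.coeff a' (τ (A k)) = ∑ k ∈ Finset.range (s + 1), (k.choose b' : HG Γ K) *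
          y i ^ (k - b') * PowerSeries.coeff a' (τ (A k)) := by
      rw [Finset.sum_subset (s₁ := Finset.range (J + 1)) (s₂ := Finset.range (J + s + 1)),
        Finset.sum_subset (s₁ := Finset.range (s + 1)) (s₂ := Finset.range (J + s + 1))]
      · intro k hk
        rw [Finset.mem_range] at hk ⊢
        omega
      · intro k _ hk
        rw [Finset.mem_range, not_lt] at hk
        rw [hAs k (by omega), map_zero, map_zero, mul_zero]
      · intro k hk
        rw [Finset.mem_range] at hk ⊢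
        omega
      · intro k _ hk
        rw [Finset.mem_range, not_lt] at hk
        rw [hAJ k (by omega), map_zero, map_zero, mul_zero]
    rw [hsum]
    have hterm : ∀ k ∈ Finset.range (s + 1), (k.choose b' : HG Γ K) * y i ^ (k - b') *
        PowerSeries.coeff a' (τ (A k)) = ∑ cd ∈ Finset.HasAntidiagonal.antidiagonal a',
          PowerSeries.coeff cd.1 (τ θ ^ J) * ((k.choose b' : HG Γ K) * y i ^ (k - b') *
            PowerSeries.coeff cd.2 (E k)) := by
      intro k hk
      rw [Finset.mem_range] at hk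
      rw [hAE k (by omega), PowerSeries.coeff_mul, Finset.mul_sum]
      refine Finset.sum_congr rfl fun cd _ => ?_
      ring
    rw [Finset.sum_congr rfl hterm, Finset.sum_comm]
    refine Finset.sum_eq_zero fun cd hcd => ?_
    rw [Finset.HasAntidiagonal.mem_antidiagonal] at hcd
    rw [← Finset.mul_sum]
    have h8 := hE cd.2 b' (by omega)
    rw [hEd]
    rw [show (∑ k ∈ Finset.range (s + 1), (k.choose b' : HG Γ K) * y i ^ (k - b') *
      PowerSeries.coeff cd.2 (∑ j ∈ Finset.range (J + 1), (j.choose k : PowerSeries (HG Γ K)) *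
        h ^ (j - k) * τ (θ₀ ^ j * Φ j (s - k)))) = 0 from h8, mul_zero]

end Pool.Agent.H225.TH
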